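import Pool.Agent.Helper81_X.Step

/-!
# Optimality and the positive instances: the main theorem
-/

namespace Helper31Con.X81

open Function Filter Fm Amp H5

/-- The main implication. -/
theorem main {con : Fm} (hcon : IsCon con) {B : List Fm} (hB : ∀ φ ∈ B, TrueS φ) :
    ∃ B₁ : List Fm, (∀ φ ∈ B₁, TrueS φ) ∧ (∀ φ ∈ B, φ ∈ B₁) ∧ (∀ φ ∈ Q, φ ∈ B₁) ∧
      ∀ A₀ E S : List Fm, (∀ φ ∈ A₀, Sentence φ) → (∀ φ ∈ S, Sentence φ) →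
        (∀ φ ∈ B₁, ∃ k, Prov A₀ k φ) → (∀ φ ∈ B₁, φ ∈ E) → (∃ k, Prov E k (conS con A₀)) →
        ∃ σ, Sentence σ ∧ ((∀ φ ∈ S, TrueS φ) → TrueS σ) ∧
          (∃ k, Prov E k (conS con (σ :: A₀))) ∧
          ∀ A : List Fm, (∀ φ ∈ A, Sentence φ) → (∀ φ ∈ σ :: A₀, ∃ k, Prov A k φ) →
            (∃ k, Prov E k (conS con A)) →
            (∃ c, ∀ n, Prov A (n ^ c + c) (conN con (conS con A :: A) n)) →
            ∃ c, ∀ n, Prov E (n ^ c + c) (conN con S n) := by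
  obtain ⟨I⟩ := exists_ifaceA (θ := bot) hcon (fun k hk => absurd hk (fun h => h))
  obtain ⟨Bs, hBs, hRef⟩ := exists_ref I hcon
  obtain ⟨Bc, hBc, hcore⟩ := core I hcon hRef
  obtain ⟨Bd, hBd, hdown⟩ := down I hcon
  obtain ⟨Bx, hBx, hfx⟩ := rich_iff.mp (((fix_fact I hcon).and (up_fact I hcon hRef)).and
    ((mono_fact I hcon).and (con_fact I hcon)))
  obtain ⟨B₁, hB₁⟩ : ∃ B₁, B₁ = B ++ (Q ++ (Bs ++ (Bc ++ (Bd ++ Bx)))) := ⟨_, rfl⟩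
  have m0 : ∀ φ ∈ B, φ ∈ B₁ := fun φ hφ => by rw [hB₁]; simp [hφ]
  have m1 : ∀ φ ∈ Q, φ ∈ B₁ := fun φ hφ => by rw [hB₁]; simp [hφ]
  have m2 : ∀ φ ∈ Bs, φ ∈ B₁ := fun φ hφ => by rw [hB₁]; simp [hφ]
  have m3 : ∀ φ ∈ Bc, φ ∈ B₁ := fun φ hφ => by rw [hB₁]; simp [hφ]
  have m4 : ∀ φ ∈ Bd, φ ∈ B₁ := fun φ hφ => by rw [hB₁]; simp [hφ]
  have m5 : ∀ φ ∈ Bx, φ ∈ B₁ := fun φ hφ => by rw [hB₁]; simp [hφ]
  have hB₁t : ∀ φ ∈ B₁, TrueS φ := by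
    intro φ hφ
    rw [hB₁] at hφ
    simp only [List.mem_append] at hφ
    rcases hφ with h | h | h | h | h | h
    · exact hB φ h
    · exact Q_true φ h
    · exact hBs φ h
    · exact hBc φ h
    · exact hBd φ h
    · exact hBx φ h
  refine ⟨B₁, hB₁t, m0, m1, ?_⟩
  intro A₀ E S hA₀ hS hA₀B hE hEc
  obtain ⟨F, hF⟩ : ∃ F, F = fc (XI I) := ⟨_, rfl⟩
  obtain ⟨π, hπ⟩ : ∃ π, π = cj S := ⟨_, rfl⟩
  obtain ⟨κ, hκ⟩ : ∃ κ, κ = K I (cN A₀ π F) := ⟨_, rfl⟩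
  have hπs : Sentence π := by rw [hπ]; exact cj_sentence hS
  have hκs : Sentence κ := by rw [hκ]; exact K_sentence I hcon _
  have hsg : sg I A₀ π F = imp κ π := by rw [hκ]; rfl
  have hσs : Sentence (imp κ π) := sentence_imp hκs hπs
  obtain ⟨⟨hfix, -⟩, ⟨-, -⟩⟩ := hfx B₁ m5
  obtain ⟨hf1, hf2⟩ := hfix A₀ π F hF
  rw [hsg, ← hκ] at hf1 hf2
  obtain ⟨⟨-, hup⟩, ⟨-, hcf⟩⟩ := hfx E fun φ hφ => hE φ (m5 φ hφ)
  have hA₀B' : ∀ φ ∈ B₁, Pv A₀ φ := fun φ hφ => pv_iff.mpr (hA₀B φ hφ)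
  refine ⟨imp κ π, hσs, ?_, ?_, ?_⟩
  · intro hSt
    refine ⟨hσs, fun e _ => ?_⟩
    rw [hπ]
    exact cj_sat fun φ hφ => (hSt φ hφ).2 e
  · exact pv_iff.mp (hup A₀ κ π hA₀ hκs hπs (pv_iff.mpr hEc) (Pv.cut hA₀B' hf1)
      fun β hβ => hA₀B' β (m2 β hβ))
  · intro A hA hAA hEA hW
    obtain ⟨c', hc'⟩ := hW
    have hA1 : ∀ φ ∈ imp κ π :: A₀, Pv A φ := fun φ hφ => pv_iff.mpr (hAA φ hφ)
    have hAB : ∀ φ ∈ B₁, Pv A φ := fun φ hφ =>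
      Pv.cut (fun P hP => hA1 P (List.mem_cons_of_mem _ hP)) (hA₀B' φ hφ)
    obtain ⟨T, hT⟩ : ∃ T, T = conS con A :: A := ⟨_, rfl⟩
    rw [← hT] at hc'
    have hTs : ∀ φ ∈ T, Sentence φ := by
      intro φ hφ
      rw [hT] at hφ
      rcases List.mem_cons.mp hφ with rfl | hφ
      · exact hcon.conS_sentence A
      · exact hA φ hφ
    -- `T` proves `S`
    have t1 : ∀ {φ : Fm}, Pv A φ → Pv T φ := fun h => by rw [hT]; exact Pv.cons h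
    have t2 : Pv T (conS con A) := Pv.mem (by rw [hT]; exact List.mem_cons_self)
    have hUs : ∀ φ ∈ imp κ π :: A₀, Sentence φ := by
      intro φ hφ
      rcases List.mem_cons.mp hφ with rfl | hφ
      · exact hσs
      · exact hA₀ φ hφ
    have t3 : Pv T (conS con (imp κ π :: A₀)) := by
      obtain ⟨⟨-, -⟩, ⟨hmo, -⟩⟩ := hfx (conS con A :: B₁) fun φ hφ =>
        List.mem_cons_of_mem _ (m5 φ hφ)
      have h1 := hmo A (imp κ π :: A₀) hA hUs hA1 (Pv.mem List.mem_cons_self)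
      refine Pv.cut (fun P hP => ?_) h1
      rcases List.mem_cons.mp hP with rfl | hP
      · exact t2
      · exact t1 (hAB P hP)
    have t4 : Pv T κ := Pv.mp (Pv.cut (fun P hP => t1 (hAB P hP)) hf2) t3
    have t5 : Pv T π := Pv.mp (t1 (hA1 _ List.mem_cons_self)) t4
    have t6 : ∀ φ ∈ S, Pv T φ := pv_cj hS (by rw [← hπ]; exact t5)
    obtain ⟨L, hL1, hL2⟩ := exists_list (T := T) (Ps := S) fun φ hφ => pv_iff.mp (t6 φ hφ)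
    -- transfer
    obtain ⟨k₀, hk₀⟩ := (hcf A).mp (pv_iff.mpr hEA)
    obtain ⟨G, hGP, hG⟩ := hcore E A T (fun β hβ => hE β (m3 β hβ)) hA
      (fun β hβ => pv_iff.mp (hAB β (m2 β hβ))) hTs k₀ hk₀
    obtain ⟨c, hc⟩ := hdown E A T S L (fun β hβ => hE β (m4 β hβ)) hTs hS hL1
      (isProof_of_subset hL2) G hGP hG
    have hP : PB (fun n => (n + ((n + c) ^ c' + c') + c) ^ c) :=
      PB.pow ((PB.id.add ((PB.pow (PB.id.add (PB.const c)) c').add (PB.const c'))).add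
        (PB.const c)) c
    obtain ⟨d, hd⟩ := pb_le hP
    exact ⟨d, fun n => (hc n _ (hc' (n + c))).mono (hd n)⟩

/-- A finite set of true sentences is consistent. -/
lemma true_consistent {A : List Fm} (hA : ∀ φ ∈ A, TrueS φ) (k : ℕ) : ¬ Prov A k .bot :=
  fun h => h.sound (fun φ hφ => (hA φ hφ).2) fun _ => 0

/-- The dichotomy. -/
theorem dich {con : Fm} (hcon : IsCon con) {B : List Fm} (hB : ∀ φ ∈ B, TrueS φ) :
    ∃ B₁ : List Fm, (∀ φ ∈ B₁, TrueS φ) ∧ (∀ φ ∈ B, φ ∈ B₁) ∧ (∀ φ ∈ Q, φ ∈ B₁) ∧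
      ∀ E : List Fm, (∀ φ ∈ E, TrueS φ) → (∀ φ ∈ B₁, φ ∈ E) →
        ((∀ S : List Fm, (∀ φ ∈ S, TrueS φ) → ∃ c, ∀ n, Prov E (n ^ c + c) (conN con S n)) ∧
          ∀ A : List Fm, (∀ φ ∈ A, TrueS φ) → (∀ φ ∈ E, φ ∈ A) →
            ∃ c, ∀ n, Prov A (n ^ c + c) (conN con (conS con A :: A) n)) ∨
        ∀ A₀ : List Fm, (∀ φ ∈ A₀, Sentence φ) → (∀ φ ∈ B₁, ∃ k, Prov A₀ k φ) →
          (∃ k, Prov E k (conS con A₀)) →
          ∃ σ, TrueS σ ∧ (∃ k, Prov E k (conS con (σ :: A₀))) ∧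
            ∀ A : List Fm, (∀ φ ∈ A, Sentence φ) → (∀ φ ∈ σ :: A₀, ∃ k, Prov A k φ) →
              (∃ k, Prov E k (conS con A)) →
              ∀ c, ∃ n, ¬ Prov A (n ^ c + c) (conN con (conS con A :: A) n) := by
  obtain ⟨B₁, h1, h2, h3, h4⟩ := main hcon hB
  refine ⟨B₁, h1, h2, h3, fun E hE hBE => ?_⟩
  by_cases h : ∀ S : List Fm, (∀ φ ∈ S, TrueS φ) → ∃ c, ∀ n, Prov E (n ^ c + c) (conN con S n)
  · refine Or.inl ⟨h, fun A hA hEA => ?_⟩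
    have hT : ∀ φ ∈ conS con A :: A, TrueS φ := by
      intro φ hφ
      rcases List.mem_cons.mp hφ with rfl | hφ
      · exact ⟨hcon.conS_sentence A, fun e =>
          (hcon.conS_sat (fun φ hφ => (hA φ hφ).1) e).mpr (true_consistent hA)⟩
      · exact hA φ hφ
    obtain ⟨c, hc⟩ := h _ hT
    refine ⟨c, fun n => ?_⟩
    obtain ⟨L, hL, hl⟩ := hc n
    exact ⟨L, hL.mono hEA, hl⟩
  · push Not at h
    obtain ⟨S, hS, hS'⟩ := h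
    refine Or.inr fun A₀ hA₀ hA₀B hEA₀ => ?_
    obtain ⟨σ, _, hσ, hσE, hσA⟩ := h4 A₀ E S hA₀ (fun φ hφ => (hS φ hφ).1) hA₀B hBE hEA₀
    refine ⟨σ, hσ hS, hσE, fun A hA hAA hEA c => ?_⟩
    by_contra hno
    push Not at hno
    obtain ⟨c', hc'⟩ := hσA A hA hAA hEA ⟨c, hno⟩
    obtain ⟨n, hn⟩ := hS' c'
    exact hn (hc' n)

end Helper31Con.X81
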