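import Pool.Agent.Helper31_Amp.Final
import Pool.Agent.Helper5_Dich.Fin

/-!
# Optimality and the positive instances: tools

Provability without bounds, the fixed point, and the facts about consistency that rich finite sets
of true sentences prove.
-/

namespace Helper31Con.H5

open Function Filter Fm Amp

/-! ### Provability without bounds -/

lemma pv_iff {T : List Fm} {φ : Fm} : Pv T φ ↔ ∃ k, Prov T k φ :=
  ⟨fun ⟨_, h⟩ => ⟨_, h.prov⟩, fun ⟨k, h⟩ => ⟨k, h.pr⟩⟩

lemma Pv.mem {T : List Fm} {φ : Fm} (h : φ ∈ T) : Pv T φ := Pv.of (Pr.mem h le_rfl)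

lemma Pv.ax {T : List Fm} {φ : Fm} (h : Ax φ) : Pv T φ := Pv.of (Pr.ax h le_rfl)

lemma Pv.mp {T : List Fm} {φ ψ : Fm} (h : Pv T (imp φ ψ)) (h' : Pv T φ) : Pv T ψ := by
  obtain ⟨n, hn⟩ := h
  obtain ⟨m, hm⟩ := h'
  exact Pv.of ((hn.mono le_rfl (Nat.le_add_right n m)).mp (hm.mono le_rfl (Nat.le_add_left m n)))

lemma Pv.ded {T : List Fm} {χ φ : Fm} (hχ : Sentence χ) (h : Pv (χ :: T) φ) :
    Pv T (imp χ φ) := by
  obtain ⟨n, hn⟩ := h
  exact Pv.of (hn.ded hχ)

lemma Pv.monoT {T T' : List Fm} {φ : Fm} (h : Pv T φ) (hT : ∀ φ ∈ T, φ ∈ T') : Pv T' φ := by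
  obtain ⟨n, hn⟩ := h
  exact ⟨n, hn.monoT hT⟩

lemma Pv.cons {T : List Fm} {χ φ : Fm} (h : Pv T φ) : Pv (χ :: T) φ :=
  h.monoT fun _ hψ => List.mem_cons_of_mem _ hψ

lemma Pv.cut {T Ps : List Fm} {φ : Fm} (h : ∀ P ∈ Ps, Pv T P) (h' : Pv Ps φ) : Pv T φ := by
  rw [pv_iff] at h' ⊢
  obtain ⟨k, hk⟩ := h'
  exact prov_cut (fun P hP => pv_iff.mp (h P hP)) hk

lemma Pv.efq {T : List Fm} {φ : Fm} (h : Pv T bot) : Pv T φ :=
  (Pv.ax (Ax.dne φ)).mp ((Pv.ax (Ax.k bot (neg φ))).mp h)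

lemma sentence_neg {φ : Fm} (h : Sentence φ) : Sentence (neg φ) := by
  intro k hk
  rcases hk with hk | hk
  · exact h k hk
  · exact hk

lemma sentence_imp {φ ψ : Fm} (h : Sentence φ) (h' : Sentence ψ) : Sentence (imp φ ψ) := by
  intro k hk
  rcases hk with hk | hk
  · exact h k hk
  · exact h' k hk

/-- `¬ (φ → ψ)` gives `φ`. -/
lemma Pv.neg_imp_left {T : List Fm} {φ ψ : Fm} (hφ : Sentence φ) (h : Pv T (neg (imp φ ψ))) :
    Pv T φ := by
  refine (Pv.ax (Ax.dne φ)).mp (Pv.ded (sentence_neg hφ) ?_)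
  refine (Pv.cons h).mp (Pv.ded hφ (Pv.efq ?_))
  exact Pv.mp (Pv.mem (φ := neg φ) (List.mem_cons_of_mem _ List.mem_cons_self))
    (Pv.mem List.mem_cons_self)

lemma Pv.and_left {T : List Fm} {φ ψ : Fm} (hφ : Sentence φ) (h : Pv T (Fm.and φ ψ)) :
    Pv T φ := Pv.neg_imp_left hφ h

lemma Pv.and_right {T : List Fm} {φ ψ : Fm} (hψ : Sentence ψ) (h : Pv T (Fm.and φ ψ)) :
    Pv T ψ := by
  refine (Pv.ax (Ax.dne ψ)).mp (Pv.ded (sentence_neg hψ) ?_)
  exact (Pv.cons h).mp ((Pv.ax (Ax.k (neg ψ) φ)).mp (Pv.mem List.mem_cons_self))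

end Helper31Con.H5

namespace Helper31Con.X81

open Function Filter Fm Amp H5

/-- The conjunction of a list. -/
def cj : List Fm → Fm
  | [] => imp bot bot
  | φ :: S => Fm.and φ (cj S)

lemma cj_sentence : ∀ {S : List Fm}, (∀ φ ∈ S, Sentence φ) → Sentence (cj S)
  | [], _ => sentence_imp (fun _ h => h) (fun _ h => h)
  | _ :: _, h => sentence_neg (sentence_imp (h _ List.mem_cons_self)
      (sentence_neg (cj_sentence fun ψ hψ => h ψ (List.mem_cons_of_mem _ hψ))))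

lemma cj_sat {e : ℕ → ℕ} : ∀ {S : List Fm}, (∀ φ ∈ S, φ.Sat e) → (cj S).Sat e
  | [], _ => fun h => h
  | _ :: _, h => fun h' => h' (h _ List.mem_cons_self)
      (cj_sat fun ψ hψ => h ψ (List.mem_cons_of_mem _ hψ))

lemma pv_cj {T : List Fm} : ∀ {S : List Fm}, (∀ φ ∈ S, Sentence φ) → Pv T (cj S) →
    ∀ φ ∈ S, Pv T φ
  | [], _, _, φ, hφ => absurd hφ (by simp)
  | ψ :: S, h, h', φ, hφ => by
    have h1 : Pv T (Fm.and ψ (cj S)) := h'
    rcases List.mem_cons.mp hφ with rfl | hφ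
    · exact Pv.and_left (h _ List.mem_cons_self) h1
    · have h2 : ∀ φ ∈ S, Sentence φ := fun ψ hψ => h ψ (List.mem_cons_of_mem _ hψ)
      exact pv_cj h2 (Pv.and_right (cj_sentence h2) h1) φ hφ

/-! ### Facts -/

variable {con θ : Fm} (I : IfaceS (RA con θ))

/-- The large context without hypotheses. -/
def cxo (B : List Fm) (c S : ℕ) (hS : 1 ≤ S) : Amp.Cx :=
  ⟨B, [], c, S, (S + c) ^ c, hS, by simp, by simp⟩

lemma cxo_pv {B : List Fm} {c S n : ℕ} {hS : 1 ≤ S} {φ : Fm} (h : (cxo B c S hS).E n φ) :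
    Pv B φ := Pv.of h

lemma ev_cxo {P : Amp.Cx → Prop} (h : Amp.Ev P) : ∃ c, ∀ᶠ B in rich, ∀ S (hS : 1 ≤ S), P (cxo B c S hS) := by
  obtain ⟨B₀, h1, c, h2⟩ := h
  exact ⟨c, B₀, h1, fun B hB S hS => h2 _ hB le_rfl le_rfl⟩

lemma nmc_fact : ∀ᶠ B in rich, ∀ a, Pv B (I.A 16 (nT a) (nT (tc (nT a))) o o) := by
  obtain ⟨c, h⟩ := ev_cxo (ev_nmc I)
  filter_upwards [h] with B h a
  exact cxo_pv (h (a + tc (nT a) + 1) (by omega) a (by show a + 1 ≤ a + tc (nT a) + 1; omega)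
    (by show tc (nT a) + 1 ≤ a + tc (nT a) + 1; omega))

lemma c0_fact : ∀ᶠ B in rich, ∀ a, Pv B (I.A 21 (nT a) (nT (fc (con.sub 0 (nT a)))) o o) := by
  obtain ⟨f, hf⟩ := ev_c0 I
  obtain ⟨c, h⟩ := ev_cxo hf
  filter_upwards [h] with B h a
  set N := a + tc (nT a) + fc con + fc (con.sub 0 (nT a)) with hN
  exact cxo_pv (h (N + 1 + f N) (by omega) a N (by omega) (by show tc (nT a) ≤ N; omega)
    (by omega) (by show fc (con.sub 0 (nT a)) ≤ N; omega)
    (by show N + 1 ≤ N + 1 + f N; omega) (by show f N ≤ N + 1 + f N; omega))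

lemma dec_fact : ∀ᶠ B in rich, ∀ j < 16, ∀ a b c d, RA con θ j a b c d →
    Pv B (I.A j (nT a) (nT b) (nT c) (nT d)) := by
  obtain ⟨f, _, h⟩ := dec_allA I.toIface
  filter_upwards [h] with B h j hj a b c d hR
  exact Pv.of ((h (a + b + c + d) j hj a b c d (by omega) (by omega) (by omega) (by omega)).1 hR)

lemma eqP (t s : Tm) : ∀ᶠ B in rich, ∀ e : ℕ → ℕ, (∃ N, ∀ k, e k ≤ N) → t.val e = s.val e →
    Pv B ((eq t s).cl e) := by
  obtain ⟨f, _, h⟩ := eq_fact t s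
  filter_upwards [h] with B h e he hts
  obtain ⟨N, hN⟩ := he
  exact Pv.of (h e N hN hts)

/-- Provability is provable. -/
lemma prr_fact : ∀ᶠ B in rich, ∀ (A : List Fm) (φ : Fm), Pv A φ →
    Pv B (I.A 17 (nT (lc A)) (nT (fc φ)) o o) := by
  have h1 := hornP [I.A 13 (x 1) (x 0) o o, I.A 12 (x 1) (x 2) o o] (I.A 17 (x 0) (x 2) o o)
    (fun e h => by
      have h1 := h _ (List.mem_cons_self)
      have h2 := h _ (List.mem_cons_of_mem _ List.mem_cons_self)
      rw [I.sat _ _ _ _ _ _ (by simp [Al]) (by simp [Al]) (by simp) (by simp)] at h1 h2 ⊢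
      obtain ⟨l, t, e1, e2, e3⟩ : PfR (e 1) (e 0) := h1
      obtain ⟨l', φ, e4, e5, e6⟩ : MeR (e 1) (e 2) := h2
      obtain rfl := lc_inj (e1.symm.trans e4)
      show PRr (e 0) (e 2)
      intro t' φ' e7 e8
      obtain rfl := lc_inj (e2.symm.trans e7)
      obtain rfl := fc_inj (e5.symm.trans e8)
      exact ⟨plen (φ :: l), l, isProof_cons_of_mem e3 e6, le_rfl⟩)
  filter_upwards [h1, dec_fact I] with B h1 hd A φ hφ
  obtain ⟨k, L, hL, _⟩ := pv_iff.mp hφ
  have q1 := hd 13 (by omega) (lc (φ :: L)) (lc A) 0 0 ⟨φ :: L, A, rfl, rfl, hL⟩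
  have q2 := hd 12 (by omega) (lc (φ :: L)) (fc φ) 0 0 ⟨φ :: L, φ, rfl, rfl, List.mem_cons_self⟩
  have := h1 (as [lc A, lc (φ :: L), fc φ]) (as_bdd _) (by
    intro α hα
    simp only [List.mem_cons, List.not_mem_nil, or_false] at hα
    rcases hα with rfl | rfl
    · rw [I.cl _ _ _ _ _ _ (by simp [Al]) (by simp [Al]) (by simp) (by simp)]
      exact q1
    · rw [I.cl _ _ _ _ _ _ (by simp [Al]) (by simp [Al]) (by simp) (by simp)]
      exact q2)
  rw [I.cl _ _ _ _ _ _ (by simp [Al]) (by simp [Al]) (by simp) (by simp)] at this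
  exact this

/-- The consistency sentence and the fact. -/
lemma con_fact (hcon : IsCon con) : ∀ᶠ B in rich, ∀ A : List Fm,
    Pv B (conS con A) ↔ Pv B (I.A 22 (nT (lc A)) o o o) := by
  have h1 := hornP [all 1 con] (I.A 22 (x 0) o o o) (fun e h => by
    have h1 := h _ List.mem_cons_self
    rw [I.sat _ _ _ _ _ _ (by simp [Al]) (by simp) (by simp) (by simp)]
    intro n
    have := h1 n
    rw [hcon.cP_iff, update_self, update_of_ne (by omega)] at this
    exact this)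
  have h2 := hornP [I.A 22 (x 0) o o o] (all 1 con) (fun e h => by
    have h1 := h _ List.mem_cons_self
    rw [I.sat _ _ _ _ _ _ (by simp [Al]) (by simp) (by simp) (by simp)] at h1
    intro n
    rw [hcon.cP_iff, update_self, update_of_ne (by omega)]
    exact h1 n)
  filter_upwards [h1, h2] with B h1 h2 A
  have e1 : (all 1 con).cl (as [lc A]) = conS con A := (hcon.conS_eq A _ rfl).symm
  have e2 : (I.A 22 (x 0) o o o).cl (as [lc A]) = I.A 22 (nT (lc A)) o o o := by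
    rw [I.cl _ _ _ _ _ _ (by simp [Al]) (by simp) (by simp) (by simp)]
    rfl
  constructor
  · intro h
    rw [← e2]
    refine h1 _ (as_bdd _) fun α hα => ?_
    rw [List.mem_singleton.mp hα, e1]
    exact h
  · intro h
    rw [← e1]
    refine h2 _ (as_bdd _) fun α hα => ?_
    rw [List.mem_singleton.mp hα, e2]
    exact h

/-! ### The fixed point -/

/-- The code of `(K → π) :: A₀`. -/
def uN (a p f t : ℕ) : ℕ :=
  nd (nd 8 (nd (nd 9 (nd 2 (nd 8 (nd (nd 6 (nd (nd 0 2) t)) f)))) p)) a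

/-- The term for `uN`. -/
def uT (a p f t : Tm) : Tm :=
  ndT (ndT (nT 8) (ndT (ndT (nT 9) (ndT (nT 2) (ndT (nT 8) (ndT (ndT (nT 6)
    (ndT (ndT (nT 0) (nT 2)) t)) f)))) p)) a

lemma val_uT (a p f t : Tm) (e : ℕ → ℕ) :
    (uT a p f t).val e = uN (a.val e) (p.val e) (f.val e) (t.val e) := by
  simp only [uT, uN, val_ndT, Tm.val_num]

/-- The formula `Con` at the code of the theory, `x_2` being the parameter. -/
def XI : Fm := all 3 (all 4 (all 5 (all 6 (all 0 (imp (eq (x 2) (ndT (ndT (x 3) (x 4)) (x 5)))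
  (imp (I.A 16 (x 2) (x 6) o o) (imp (eq (x 0) (uT (x 3) (x 4) (x 5) (x 6))) (all 1 con))))))))

lemma sat_XI (hcon : IsCon con) (e : ℕ → ℕ) : (XI I).Sat e ↔
    ∀ a p f, e 2 = nd (nd a p) f → ∀ n, cP con (uN a p f (tc (nT (e 2)))) n := by
  have key : ∀ a p f t u : ℕ, ∀ e' : ℕ → ℕ,
      e' = update (update (update (update (update e 3 a) 4 p) 5 f) 6 t) 0 u →
      ((imp (eq (x 2) (ndT (ndT (x 3) (x 4)) (x 5)))
        (imp (I.A 16 (x 2) (x 6) o o) (imp (eq (x 0) (uT (x 3) (x 4) (x 5) (x 6)))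
          (all 1 con)))).Sat e' ↔ (e 2 = nd (nd a p) f → t = tc (nT (e 2)) → u = uN a p f t →
            ∀ n, cP con u n)) := by
    intro a p f t u e' he'
    have e2 : e' 2 = e 2 := by simp (disch := decide) only [he', update_of_ne]
    have e3 : e' 3 = a := by simp (disch := decide) only [he', update_self, update_of_ne]
    have e4 : e' 4 = p := by simp (disch := decide) only [he', update_self, update_of_ne]
    have e5 : e' 5 = f := by simp (disch := decide) only [he', update_self, update_of_ne]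
    have e6 : e' 6 = t := by simp (disch := decide) only [he', update_self, update_of_ne]
    have e0 : e' 0 = u := by simp only [he', update_self]
    have h1 : (all 1 con).Sat e' ↔ ∀ n, cP con u n := by
      refine forall_congr' fun n => ?_
      rw [hcon.cP_iff, update_self, update_of_ne (by omega), e0]
    have h2 : (I.A 16 (x 2) (x 6) o o).Sat e' ↔ t = tc (nT (e 2)) := by
      rw [I.sat _ _ _ _ _ _ (by simp [Al]) (by simp [Al]) (by simp) (by simp)]
      show e' 6 = tc (nT (e' 2)) ↔ _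
      rw [e2, e6]
    have h3 : (eq (x 2) (ndT (ndT (x 3) (x 4)) (x 5))).Sat e' ↔ e 2 = nd (nd a p) f := by
      show (x 2).val e' = (ndT (ndT (x 3) (x 4)) (x 5)).val e' ↔ _
      rw [val_ndT, val_ndT]
      show e' 2 = nd (nd (e' 3) (e' 4)) (e' 5) ↔ _
      rw [e2, e3, e4, e5]
    have h4 : (eq (x 0) (uT (x 3) (x 4) (x 5) (x 6))).Sat e' ↔ u = uN a p f t := by
      show (x 0).val e' = (uT (x 3) (x 4) (x 5) (x 6)).val e' ↔ _
      rw [val_uT]
      show e' 0 = uN (e' 3) (e' 4) (e' 5) (e' 6) ↔ _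
      rw [e0, e3, e4, e5, e6]
    exact imp_congr h3 (imp_congr h2 (imp_congr h4 h1))
  constructor
  · intro h a p f hc
    exact (key a p f _ _ _ rfl).mp (h a p f (tc (nT (e 2))) (uN a p f (tc (nT (e 2))))) hc rfl rfl
  · intro h a p f t u
    refine (key a p f t u _ rfl).mpr ?_
    rintro hc rfl rfl
    exact h a p f hc

lemma free_XI (hcon : IsCon con) {k : ℕ} (h : (XI I).Free k) : k = 2 := by
  obtain ⟨h3, h4, h5, h6, h0, h⟩ := h
  have hx : ∀ (j : ℕ), (x j).Has k → k = j := fun j h => h.symm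
  rcases h with h | h | h | h
  · rcases h with h | h
    · exact hx 2 h
    · rw [has_ndT, has_ndT] at h
      rcases h with (h | h) | h
      · exact absurd h h3
      · exact absurd h h4
      · exact absurd h h5
  · rcases I.free _ _ _ _ _ _ (by simp [Al]) (by simp [Al]) (by simp) (by simp) h with
      h | h | h | h
    · exact hx 2 h
    · exact absurd h h6
    · exact absurd h (by simp [Tm.Has])
    · exact absurd h (by simp [Tm.Has])
  · rcases h with h | h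
    · exact absurd h h0
    · simp only [uT, has_ndT, Tm.not_has_num, false_or] at h
      rcases h with ((h | h) | h) | h
      · exact absurd h h6
      · exact absurd h h5
      · exact absurd h h4
      · exact absurd h h3
  · have := hcon.free k h.2
    have h1 : k ≠ 1 := fun h' => h.1 h'.symm
    have h0' : k ≠ 0 := fun h' => h0 h'.symm
    omega

/-- The sentence that states the consistency of `(K → π) :: A₀`. -/
def K (c : ℕ) : Fm := all 2 (imp (eq (x 2) (nT c)) (XI I))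

/-- The open version. -/
def KO : Fm := all 2 (imp (eq (x 2) (x 7)) (XI I))

lemma K_sentence (hcon : IsCon con) (c : ℕ) : Sentence (K I c) := by
  rintro k ⟨h2, h | h⟩
  · rcases h with h | h
    · exact h2 h
    · exact Tm.not_has_num _ _ h
  · exact h2 (free_XI I hcon h).symm

lemma sat_KO (hcon : IsCon con) (e : ℕ → ℕ) : (KO I).Sat e ↔
    ∀ a p f, e 7 = nd (nd a p) f → ∀ n, cP con (uN a p f (tc (nT (e 7)))) n := by
  constructor
  · intro h
    have h1 := h (e 7) (by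
      show (update e 2 (e 7)) 2 = (update e 2 (e 7)) 7
      rw [update_self, update_of_ne (by omega)])
    rw [sat_XI I hcon, update_self] at h1
    exact h1
  · intro h c hc
    have hc' : c = e 7 := by
      have : (update e 2 c) 2 = (update e 2 c) 7 := hc
      rwa [update_self, update_of_ne (by omega)] at this
    rw [sat_XI I hcon, update_self, hc']
    exact h

lemma KO_cl (hcon : IsCon con) (e : ℕ → ℕ) : (KO I).cl e = K I (e 7) := by
  set σ : ℕ → Tm := update (fun k => Tm.num (e k)) 2 (x 2) with hσ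
  have a1 : σ 2 = x 2 := by rw [hσ, update_self]
  have a2 : σ 7 = .num (e 7) := by rw [hσ, update_of_ne (by omega)]
  have a5 : (XI I).sb σ = XI I := by
    conv_rhs => rw [← Fm.sb_var (XI I)]
    refine Fm.sb_congr fun k hk => ?_
    rw [free_XI I hcon hk, hσ, update_self]
  show all 2 (imp (eq (σ 2) (σ 7)) ((XI I).sb σ)) = _
  rw [a1, a2, a5]; rfl

/-- The parameter; `F` is the code of `XI`. -/
def cN (A₀ : List Fm) (π : Fm) (F : ℕ) : ℕ := nd (nd (lc A₀) (fc π)) F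

/-- The fixed point. -/
def sg (A₀ : List Fm) (π : Fm) (F : ℕ) : Fm := imp (K I (cN A₀ π F)) π

lemma lc_sg (A₀ : List Fm) (π : Fm) (F : ℕ) : lc (sg I A₀ π F :: A₀) =
    uN (lc A₀) (fc π) (fc (XI I)) (tc (nT (cN A₀ π F))) := rfl

lemma sg_sentence (hcon : IsCon con) {A₀ : List Fm} {π : Fm} {F : ℕ} (hπ : Sentence π) :
    Sentence (sg I A₀ π F) := sentence_imp (K_sentence I hcon _) hπ

/-- The hypotheses on the codes. -/
def hy : List Fm := [eq (x 7) (ndT (ndT (x 3) (x 4)) (x 5)), I.A 16 (x 7) (x 6) o o,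
  eq (x 0) (uT (x 3) (x 4) (x 5) (x 6))]

lemma hy_sat {e : ℕ → ℕ} (h : ∀ α ∈ hy I, α.Sat e) :
    e 7 = nd (nd (e 3) (e 4)) (e 5) ∧ e 6 = tc (nT (e 7)) ∧ e 0 = uN (e 3) (e 4) (e 5) (e 6) := by
  have h1 : (x 7).val e = (ndT (ndT (x 3) (x 4)) (x 5)).val e :=
    h (eq (x 7) (ndT (ndT (x 3) (x 4)) (x 5))) (by simp [hy])
  have h2 := h (I.A 16 (x 7) (x 6) o o) (by simp [hy])
  have h3 : (x 0).val e = (uT (x 3) (x 4) (x 5) (x 6)).val e :=
    h (eq (x 0) (uT (x 3) (x 4) (x 5) (x 6))) (by simp [hy])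
  rw [I.sat _ _ _ _ _ _ (by simp [Al]) (by simp [Al]) (by simp) (by simp)] at h2
  rw [val_ndT, val_ndT] at h1
  rw [val_uT] at h3
  exact ⟨h1, h2, h3⟩

lemma hy_pv : ∀ᶠ B in rich, ∀ a p f u : ℕ, u = uN a p f (tc (nT (nd (nd a p) f))) →
    ∀ α ∈ hy I, Pv B (α.cl (as [u, 0, 0, a, p, f, tc (nT (nd (nd a p) f)), nd (nd a p) f])) := by
  filter_upwards [eqP (x 7) (ndT (ndT (x 3) (x 4)) (x 5)),
    eqP (x 0) (uT (x 3) (x 4) (x 5) (x 6)), nmc_fact I] with B q1 q2 q3 a p f u hu α hα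
  set c := nd (nd a p) f with hc
  simp only [hy, List.mem_cons, List.not_mem_nil, or_false] at hα
  rcases hα with rfl | rfl | rfl
  · refine q1 _ (as_bdd _) ?_
    rw [val_ndT, val_ndT]
    exact hc
  · rw [I.cl _ _ _ _ _ _ (by simp [Al]) (by simp [Al]) (by simp) (by simp)]
    exact q3 c
  · refine q2 _ (as_bdd _) ?_
    rw [val_uT]
    exact hu

/-- The fixed point equation. -/
lemma fix_fact (hcon : IsCon con) : ∀ᶠ B in rich, ∀ (A₀ : List Fm) (π : Fm) (F : ℕ),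
    F = fc (XI I) → Pv B (imp (K I (cN A₀ π F)) (conS con (sg I A₀ π F :: A₀))) ∧
    Pv B (imp (conS con (sg I A₀ π F :: A₀)) (K I (cN A₀ π F))) := by
  have h1 := hornP (hy I) (imp (KO I) (all 1 con)) (fun e h => by
      obtain ⟨a1, a2, a3⟩ := hy_sat I h
      intro hK n
      rw [sat_KO I hcon] at hK
      rw [hcon.cP_iff, update_self, update_of_ne (by omega), a3, a2]
      exact hK _ _ _ a1 n)
  have h2 := hornP (hy I) (imp (all 1 con) (KO I)) (fun e h => by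
      obtain ⟨a1, a2, a3⟩ := hy_sat I h
      intro hC
      rw [sat_KO I hcon]
      intro a p f hc n
      rw [a1] at hc
      obtain ⟨hc1, hc2⟩ := nd_inj.mp hc
      obtain ⟨hc3, hc4⟩ := nd_inj.mp hc1
      have := hC n
      rw [hcon.cP_iff, update_self, update_of_ne (by omega), a3, a2, hc2, hc3, hc4] at this
      exact this)
  filter_upwards [h1, h2, hy_pv I] with B h1 h2 hp A₀ π F hF
  obtain ⟨u, hu⟩ : ∃ u, u = lc (sg I A₀ π F :: A₀) := ⟨_, rfl⟩
  have hu' : u = uN (lc A₀) (fc π) F (tc (nT (nd (nd (lc A₀) (fc π)) F))) := by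
    rw [hu, lc_sg, ← hF, cN]
  obtain ⟨a, ha⟩ : ∃ a, a = lc A₀ := ⟨_, rfl⟩
  obtain ⟨p, hp'⟩ : ∃ p, p = fc π := ⟨_, rfl⟩
  rw [← ha, ← hp'] at hu'
  obtain ⟨t, ht⟩ : ∃ t, t = tc (nT (nd (nd a p) F)) := ⟨_, rfl⟩
  obtain ⟨c, hc⟩ : ∃ c, c = nd (nd a p) F := ⟨_, rfl⟩
  have hall := hp a p F u hu'
  rw [← ht, ← hc] at hall
  have e1 : (KO I).cl (as [u, 0, 0, a, p, F, t, c]) = K I c := KO_cl I hcon _
  have e2 : (all 1 con).cl (as [u, 0, 0, a, p, F, t, c]) = conS con (sg I A₀ π F :: A₀) :=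
    (hcon.conS_eq _ _ hu).symm
  have e3 : cN A₀ π F = c := by rw [hc, cN, ha, hp']
  rw [e3]
  have s1 := h1 _ (as_bdd [u, 0, 0, a, p, F, t, c]) hall
  have s2 := h2 _ (as_bdd [u, 0, 0, a, p, F, t, c]) hall
  have e4 : (imp (KO I) (all 1 con)).cl (as [u, 0, 0, a, p, F, t, c]) =
      imp ((KO I).cl (as [u, 0, 0, a, p, F, t, c]))
        ((all 1 con).cl (as [u, 0, 0, a, p, F, t, c])) := rfl
  have e5 : (imp (all 1 con) (KO I)).cl (as [u, 0, 0, a, p, F, t, c]) =
      imp ((all 1 con).cl (as [u, 0, 0, a, p, F, t, c]))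
        ((KO I).cl (as [u, 0, 0, a, p, F, t, c])) := rfl
  rw [e4, e1, e2] at s1
  rw [e5, e1, e2] at s2
  exact ⟨s1, s2⟩

end Helper31Con.X81
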