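import Pool.Agent.Helper81_X.Base

/-!
# Optimality and the positive instances: the consistency of the fixed point, the transfer
-/

namespace Helper31Con.X81

open Function Filter Fm Amp H5

variable {con θ : Fm} (I : IfaceS (RA con θ))

lemma sentence_conS (hcon : IsCon con) (T : List Fm) : Sentence (conS con T) :=
  hcon.conS_sentence T

/-- `Con_T` gives `Con_T(n)`. -/
lemma pv_conN {L T : List Fm} (h : Pv L (conS con T)) (n : ℕ) : Pv L (conN con T n) :=
  (Pv.ax (Ax.inst 1 (con.sub 0 (.num (lc T))) (.num n) (Fm.freeFor_num _ _ _))).mp h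

/-- Truth of the rule for the fixed point. -/
lemma sem_up (hcon : IsCon con) {Bs : List Fm} (hBs : Ref con Bs) {a u k p c0 z : ℕ}
    (h1 : ∀ n, cP con a n) (h2 : LSR a) (h3 : LSR u) (h4 : u = nd (nd 8 (nd k p)) a)
    (h5 : c0 = fc (con.sub 0 (nT u))) (h6 : PRr a z) (h7 : z = nd 8 (nd k (nd 9 (nd 1 c0))))
    (h8 : ∀ β ∈ Bs, PRr a (fc β)) : ∀ n, cP con u n := by
  obtain ⟨l, rfl, hl⟩ := h2
  obtain ⟨U, rfl, hU⟩ := h3
  cases U with
  | nil => have := nd_pos (nd 8 (nd k p)) (lc l); simp only [lc] at h4; omega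
  | cons φ U =>
    have e1 : nd (fc φ) (lc U) = nd (nd 8 (nd k p)) (lc l) := h4
    obtain ⟨e2, e3⟩ := nd_inj.mp e1
    obtain rfl := lc_inj e3
    obtain ⟨α, β, rfl, rfl, rfl⟩ := inv8 e2.symm
    have hφ : Sentence (imp α β) := hU _ List.mem_cons_self
    have hα : Sentence α := fun j hj => hφ j (Or.inl hj)
    have hz : z = fc (imp α (conS con (imp α β :: U))) := by rw [h7, h5]; rfl
    intro n
    rw [cP_lc hcon hU]
    intro hp
    -- the smaller theory proves its negation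
    have q1 : Pv U (neg (imp α β)) := Pv.ded hφ (pv_iff.mpr ⟨n, hp⟩)
    have q2 : Pv U α := Pv.neg_imp_left hα q1
    have q3 : Pv U (imp α (conS con (imp α β :: U))) := pv_iff.mpr (h6 U _ rfl hz)
    have q4 : Pv U (conN con (imp α β :: U) n) := pv_conN (q3.mp q2) n
    obtain ⟨k', hk'⟩ := hBs (imp α β :: U) n hU hp
    have q5 : Pv U (neg (conN con (imp α β :: U) n)) :=
      Pv.cut (fun β' hβ' => pv_iff.mpr (h8 β' hβ' U β' rfl rfl)) (pv_iff.mpr ⟨k', hk'⟩)
    obtain ⟨m, hm⟩ := pv_iff.mp (q5.mp q4)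
    exact (cP_lc hcon hl m).mp (h1 m) hm

include I in
/-- A rich theory that proves `Con_{A₀}` proves the consistency of the fixed point. -/
lemma up_fact (hcon : IsCon con) {Bs : List Fm} (hBs : Ref con Bs) : ∀ᶠ B in rich,
    ∀ (A₀ : List Fm) (κ π : Fm), (∀ φ ∈ A₀, Sentence φ) → Sentence κ → Sentence π →
      Pv B (conS con A₀) → Pv A₀ (imp κ (conS con (imp κ π :: A₀))) → (∀ β ∈ Bs, Pv A₀ β) →
      Pv B (conS con (imp κ π :: A₀)) := by
  have h := hornP ([I.A 22 (x 0) o o o, I.A 11 (x 0) o o o, I.A 11 (x 1) o o o,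
    eq (x 1) (ndT (ndT (nT 8) (ndT (x 2) (x 3))) (x 0)), I.A 21 (x 1) (x 4) o o,
    I.A 17 (x 0) (x 5) o o,
    eq (x 5) (ndT (nT 8) (ndT (x 2) (ndT (nT 9) (ndT (nT 1) (x 4)))))] ++
    Bs.map fun β => I.A 17 (x 0) (nT (fc β)) o o) (I.A 22 (x 1) o o o) (fun e h => by
      have g1 := h (I.A 22 (x 0) o o o) (by simp)
      have g2 := h (I.A 11 (x 0) o o o) (by simp)
      have g3 := h (I.A 11 (x 1) o o o) (by simp)
      have g4 : (x 1).val e = (ndT (ndT (nT 8) (ndT (x 2) (x 3))) (x 0)).val e :=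
        h (eq (x 1) (ndT (ndT (nT 8) (ndT (x 2) (x 3))) (x 0))) (by simp)
      have g5 := h (I.A 21 (x 1) (x 4) o o) (by simp)
      have g6 := h (I.A 17 (x 0) (x 5) o o) (by simp)
      have g7 : (x 5).val e = (ndT (nT 8) (ndT (x 2) (ndT (nT 9) (ndT (nT 1) (x 4))))).val e :=
        h (eq (x 5) (ndT (nT 8) (ndT (x 2) (ndT (nT 9) (ndT (nT 1) (x 4)))))) (by simp)
      have g8 : ∀ β ∈ Bs, (I.A 17 (x 0) (nT (fc β)) o o).Sat e := fun β hβ =>
        h _ (List.mem_append_right _ (List.mem_map_of_mem hβ))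
      rw [I.sat _ _ _ _ _ _ (by simp [Al]) (by simp) (by simp) (by simp)] at g1 g2 g3 ⊢
      rw [I.sat _ _ _ _ _ _ (by simp [Al]) (by simp [Al]) (by simp) (by simp)] at g5 g6
      simp only [val_ndT, Tm.val_num] at g4 g7
      have g8' : ∀ β ∈ Bs, PRr (e 0) (fc β) := fun β hβ => by
        have := g8 β hβ
        rw [I.sat _ _ _ _ _ _ (by simp [Al]) (by simp) (by simp) (by simp), Tm.val_num] at this
        exact this
      exact sem_up hcon hBs g1 g2 g3 g4 g5 g6 g7 g8')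
  filter_upwards [h, dec_fact I, c0_fact I, prr_fact I, con_fact I hcon,
    eqP (x 1) (ndT (ndT (nT 8) (ndT (x 2) (x 3))) (x 0)),
    eqP (x 5) (ndT (nT 8) (ndT (x 2) (ndT (nT 9) (ndT (nT 1) (x 4)))))] with
    B h hd hc hp hcf q1 q2 A₀ κ π hA₀ hκ hπ b1 b2 b3
  obtain ⟨U, hU⟩ : ∃ U, U = imp κ π :: A₀ := ⟨_, rfl⟩
  rw [← hU] at b2 ⊢
  have hUs : ∀ φ ∈ U, Sentence φ := by
    intro φ hφ
    rw [hU] at hφ
    rcases List.mem_cons.mp hφ with rfl | hφ
    · exact sentence_imp hκ hπ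
    · exact hA₀ φ hφ
  obtain ⟨u, hu⟩ : ∃ u, u = lc U := ⟨_, rfl⟩
  obtain ⟨a, ha⟩ : ∃ a, a = lc A₀ := ⟨_, rfl⟩
  obtain ⟨k, hk⟩ : ∃ k, k = fc κ := ⟨_, rfl⟩
  obtain ⟨p, hp'⟩ : ∃ p, p = fc π := ⟨_, rfl⟩
  obtain ⟨c0, hc0⟩ : ∃ c0, c0 = fc (con.sub 0 (nT u)) := ⟨_, rfl⟩
  obtain ⟨z, hz⟩ : ∃ z, z = nd 8 (nd k (nd 9 (nd 1 c0))) := ⟨_, rfl⟩
  have hu' : u = nd (nd 8 (nd k p)) a := by rw [hu, hU, hk, hp', ha]; rfl
  have hz' : z = fc (imp κ (conS con U)) := by rw [hz, hk, hc0, hu]; rfl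
  have key := h (as [a, u, k, p, c0, z]) (as_bdd _) (by
    intro α hα
    rcases List.mem_append.mp hα with hα | hα
    · simp only [List.mem_cons, List.not_mem_nil, or_false] at hα
      rcases hα with rfl | rfl | rfl | rfl | rfl | rfl | rfl
      · rw [I.cl _ _ _ _ _ _ (by simp [Al]) (by simp) (by simp) (by simp)]
        show Pv B (I.A 22 (nT a) o o o)
        rw [ha]
        exact (hcf A₀).mp b1
      · rw [I.cl _ _ _ _ _ _ (by simp [Al]) (by simp) (by simp) (by simp)]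
        exact hd 11 (by omega) a 0 0 0 ⟨A₀, ha, hA₀⟩
      · rw [I.cl _ _ _ _ _ _ (by simp [Al]) (by simp) (by simp) (by simp)]
        exact hd 11 (by omega) u 0 0 0 ⟨U, hu, hUs⟩
      · refine q1 _ (as_bdd _) ?_
        simp only [val_ndT, Tm.val_num]
        exact hu'
      · rw [I.cl _ _ _ _ _ _ (by simp [Al]) (by simp [Al]) (by simp) (by simp)]
        show Pv B (I.A 21 (nT u) (nT c0) o o)
        rw [hc0]
        exact hc u
      · rw [I.cl _ _ _ _ _ _ (by simp [Al]) (by simp [Al]) (by simp) (by simp)]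
        show Pv B (I.A 17 (nT a) (nT z) o o)
        rw [hz', ha]
        exact hp A₀ _ b2
      · refine q2 _ (as_bdd _) ?_
        simp only [val_ndT, Tm.val_num]
        exact hz
    · obtain ⟨β, hβ, rfl⟩ := List.mem_map.mp hα
      rw [I.cl _ _ _ _ _ _ (by simp [Al]) (by simp) (by simp) (by simp)]
      show Pv B (I.A 17 (nT a) ((nT (fc β)).sb _) o o)
      rw [Tm.sb_num, ha]
      exact hp A₀ β (b3 β hβ))
  rw [I.cl _ _ _ _ _ _ (by simp [Al]) (by simp) (by simp) (by simp)] at key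
  rw [hcf U]
  have key' : Pv B (I.A 22 (nT u) o o o) := key
  rw [← hu]
  exact key'

include I in
/-- From `Con_A` to `Con_U` if `A` proves all the members of `U`. -/
lemma mono_fact (hcon : IsCon con) : ∀ᶠ B in rich, ∀ A U : List Fm, (∀ φ ∈ A, Sentence φ) →
    (∀ φ ∈ U, Sentence φ) → (∀ φ ∈ U, Pv A φ) → Pv B (conS con A) → Pv B (conS con U) := by
  have h := hornP [I.A 22 (x 0) o o o, I.A 11 (x 0) o o o, I.A 11 (x 1) o o o,
    I.A 13 (x 2) (x 0) o o, I.A 13 (x 1) (x 2) o o] (I.A 22 (x 1) o o o) (fun e h => by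
      have g1 := h (I.A 22 (x 0) o o o) (by simp)
      have g2 := h (I.A 11 (x 0) o o o) (by simp)
      have g3 := h (I.A 11 (x 1) o o o) (by simp)
      have g4 := h (I.A 13 (x 2) (x 0) o o) (by simp)
      have g5 := h (I.A 13 (x 1) (x 2) o o) (by simp)
      rw [I.sat _ _ _ _ _ _ (by simp [Al]) (by simp) (by simp) (by simp)] at g1 g2 g3 ⊢
      rw [I.sat _ _ _ _ _ _ (by simp [Al]) (by simp [Al]) (by simp) (by simp)] at g4 g5
      obtain ⟨A, eA, hA⟩ : LSR (e 0) := g2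
      obtain ⟨U, eU, hU⟩ : LSR (e 1) := g3
      obtain ⟨L, A', e1, e2, hL⟩ : PfR (e 2) (e 0) := g4
      obtain ⟨U', L', e3, e4, hUL⟩ : PfR (e 1) (e 2) := g5
      obtain rfl := lc_inj (eA.symm.trans e2)
      obtain rfl := lc_inj (eU.symm.trans e3)
      obtain rfl := lc_inj (e1.symm.trans e4)
      intro n
      show cP con (e 1) n
      rw [eU, cP_lc hcon hU]
      rintro ⟨P, hP, _⟩
      have q1 : IsProof A (U ++ L) :=
        cut_list (hUL.mono fun φ hφ => List.mem_append_left _ hφ) hL fun P hP => hP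
      have q2 : IsProof A ((Fm.bot :: P) ++ (U ++ L)) :=
        cut_list (hP.mono fun φ hφ => List.mem_append_left _ hφ) q1
          fun P hP => List.mem_append_left _ hP
      have g1' : ∀ m, cP con (e 0) m := g1
      refine (cP_lc hcon hA (plen ((Fm.bot :: P) ++ (U ++ L)))).mp ?_ ⟨P ++ (U ++ L), q2, le_rfl⟩
      rw [← eA]
      exact g1' _)
  filter_upwards [h, dec_fact I, con_fact I hcon] with B h hd hcf A U hA hU hAU b1
  obtain ⟨L, hL1, hL2⟩ := exists_list (T := A) (Ps := U) fun φ hφ => pv_iff.mp (hAU φ hφ)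
  have hUL : IsProof L U := isProof_of_subset hL2
  obtain ⟨a, ha⟩ : ∃ a, a = lc A := ⟨_, rfl⟩
  obtain ⟨u, hu⟩ : ∃ u, u = lc U := ⟨_, rfl⟩
  obtain ⟨l, hl⟩ : ∃ l, l = lc L := ⟨_, rfl⟩
  have key := h (as [a, u, l]) (as_bdd _) (by
    intro α hα
    simp only [List.mem_cons, List.not_mem_nil, or_false] at hα
    rcases hα with rfl | rfl | rfl | rfl | rfl
    · rw [I.cl _ _ _ _ _ _ (by simp [Al]) (by simp) (by simp) (by simp)]
      show Pv B (I.A 22 (nT a) o o o)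
      rw [ha]
      exact (hcf A).mp b1
    · rw [I.cl _ _ _ _ _ _ (by simp [Al]) (by simp) (by simp) (by simp)]
      exact hd 11 (by omega) a 0 0 0 ⟨A, ha, hA⟩
    · rw [I.cl _ _ _ _ _ _ (by simp [Al]) (by simp) (by simp) (by simp)]
      exact hd 11 (by omega) u 0 0 0 ⟨U, hu, hU⟩
    · rw [I.cl _ _ _ _ _ _ (by simp [Al]) (by simp [Al]) (by simp) (by simp)]
      exact hd 13 (by omega) l a 0 0 ⟨L, A, hl, ha, hL1⟩
    · rw [I.cl _ _ _ _ _ _ (by simp [Al]) (by simp [Al]) (by simp) (by simp)]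
      exact hd 13 (by omega) u l 0 0 ⟨U, L, hu, hl, hUL⟩)
  rw [I.cl _ _ _ _ _ _ (by simp [Al]) (by simp) (by simp) (by simp)] at key
  rw [hcf U]
  have key' : Pv B (I.A 22 (nT u) o o o) := key
  rw [← hu]
  exact key'

end Helper31Con.X81
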